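import Pool.Agent.MP_c69980_ag.H16.ResA

/-!
Row 7: resolution of plane curves as an induction principle for polynomials.
-/

set_option autoImplicit false

noncomputable section

namespace Pool.Agent.MP_c69980_ag.H16

open MvPolynomial
open H60 (PR)
open H4

/-- Restriction to the line where the first variable vanishes. -/
def e0 : PR 2 →ₐ[ℂ] Polynomial ℂ := aeval ![0, Polynomial.X]
/-- Restriction to the line where the second variable vanishes. -/
def e1 : PR 2 →ₐ[ℂ] Polynomial ℂ := aeval ![Polynomial.X, 0]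
/-- The first chart of the blow-up. -/
def b1 : PR 2 →ₐ[ℂ] PR 2 := aeval ![X 0, X 0 * X 1]
/-- The second chart of the blow-up, with the variables exchanged. -/
def b0 : PR 2 →ₐ[ℂ] PR 2 := aeval ![X 0 * X 1, X 0]
/-- Exchange of the variables. -/
def sw : PR 2 →ₐ[ℂ] PR 2 := aeval ![X 1, X 0]
/-- Translation. -/
def ta (q : Fin 2 → ℂ) : PR 2 →ₐ[ℂ] PR 2 := aeval fun i => (X i : PR 2) + C (q i)

theorem hom_eq {L : Type*} [CommRing L] [Algebra ℂ L] {f g : PR 2 →ₐ[ℂ] L}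
    (h0 : f (X 0) = g (X 0)) (h1 : f (X 1) = g (X 1)) (p : PR 2) : f p = g p :=
  DFunLike.congr_fun (algHom_ext (Fin.forall_fin_two.2 ⟨h0, h1⟩)) p

theorem sw_sw (p : PR 2) : sw (sw p) = p :=
  hom_eq (f := sw.comp sw) (g := AlgHom.id ℂ _) (by simp [sw]) (by simp [sw]) p

theorem b1_sw (p : PR 2) : b1 (sw p) = b0 p :=
  hom_eq (f := b1.comp sw) (by simp [sw, b0, b1]) (by simp [sw, b0, b1]) p

theorem e1_b1 (p : PR 2) : e1 (b1 p) = e1 p :=
  hom_eq (f := e1.comp b1) (by simp [e1, b1]) (by simp [e1, b1]) p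

theorem e1_b0 (p : PR 2) : e1 (b0 p) = e0 p :=
  hom_eq (f := e1.comp b0) (by simp [e0, e1, b0]) (by simp [e0, e1, b0]) p

theorem e0_ta (c : ℂ) (p : PR 2) : e0 (ta ![0, c] p) = Polynomial.taylor c (e0 p) :=
  hom_eq (f := e0.comp (ta ![0, c])) (g := (Polynomial.taylorAlgHom c).comp e0)
    (by simp [e0, ta]) (by simp [e0, ta]) p

theorem ta_zero (p : PR 2) : ta ![0, 0] p = p :=
  hom_eq (g := AlgHom.id ℂ _) (by simp [ta]) (by simp [ta]) p

theorem ev_e0 (p : PR 2) : (e0 p).coeff 0 = eval 0 p := by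
  rw [Polynomial.coeff_zero_eq_eval_zero, ← Polynomial.coe_aeval_eq_eval, ← coe_aeval_eq_eval]
  exact hom_eq (f := (Polynomial.aeval (0 : ℂ)).comp e0) (g := aeval 0) (by simp [e0])
    (by simp [e0]) p

theorem ev_ta_b1 (c : ℂ) (p : PR 2) : eval 0 (ta ![0, c] (b1 p)) = eval 0 p := by
  rw [← coe_aeval_eq_eval]
  exact hom_eq (f := (aeval (0 : Fin 2 → ℂ)).comp ((ta ![0, c]).comp b1)) (g := aeval 0)
    (by simp [ta, b1]) (by simp [ta, b1]) p

theorem sqf_sw {p : PR 2} (h : Squarefree p) : Squarefree (sw p) :=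
  sqf_hom sw sw (fun i => sw_sw _) (fun i => sw_sw _) h

theorem sqf_ta (q : Fin 2 → ℂ) {p : PR 2} (h : Squarefree p) : Squarefree (ta q p) :=
  sqf_hom (ta q) (ta (-q)) (fun i => by simp [ta]) (fun i => by simp [ta]) h

theorem nd0 {p : PR 2} (h : e0 p ≠ 0) : ¬ X 0 ∣ p := by
  rintro ⟨r, rfl⟩
  exact h (by simp [e0])

theorem nd1 {p : PR 2} (h : e1 p ≠ 0) : ¬ X 1 ∣ p := by
  rintro ⟨r, rfl⟩
  exact h (by simp [e1])

theorem sqf_X {p : PR 2} {i : Fin 2} (h : Squarefree p) (hi : ¬ X i ∣ p) :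
    Squarefree (X i * p) :=
  squarefree_mul_iff.2 ⟨X_prime.irreducible.isRelPrime_iff_not_dvd.2 hi, X_prime.squarefree, h⟩

theorem der_e0 (p : PR 2) : Polynomial.derivative (e0 p) = e0 (pderiv 1 p) := by
  simpa [e0] using chain Polynomial.derivative' ![0, Polynomial.X] p

theorem der_b1 (p : PR 2) : pderiv 1 (b1 p) = X 0 * b1 (pderiv 1 p) := by
  have h := chain (L := PR 2) (pderiv 1) ![X 0, X 0 * X 1] p
  have h0 : pderiv 1 (![(X 0 : PR 2), X 0 * X 1] 0) = 0 := by simp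
  have h1 : pderiv 1 (![(X 0 : PR 2), X 0 * X 1] 1) = X 0 := by simp [pderiv_mul]
  rw [h0, h1, mul_zero, zero_add] at h
  exact h.trans (mul_comm _ _)

theorem der_ta (q : Fin 2 → ℂ) (p : PR 2) : pderiv 1 (ta q p) = ta q (pderiv 1 p) := by
  have h := chain (L := PR 2) (pderiv 1) (fun i => (X i : PR 2) + C (q i)) p
  have h0 : pderiv 1 ((X 0 : PR 2) + C (q 0)) = 0 := by simp
  have h1 : pderiv 1 ((X 1 : PR 2) + C (q 1)) = 1 := by simp
  rw [h0, h1, mul_zero, zero_add, mul_one] at h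
  exact h

/-- The monomials of `p` with new exponents. -/
def G (j : Fin 2) (f : (Fin 2 →₀ ℕ) → ℕ) (p : PR 2) : PR 2 :=
  ∑ m ∈ p.support, C (coeff m p) * (X 0 ^ f m * X 1 ^ m j)

theorem aeval_G {L : Type*} [CommRing L] [Algebra ℂ L] (s t : L) (j : Fin 2)
    (f : (Fin 2 →₀ ℕ) → ℕ) (p : PR 2) : aeval ![s, t] (G j f p) =
      ∑ m ∈ p.support, algebraMap ℂ L (coeff m p) * (s ^ f m * t ^ m j) := by
  simp [G]

theorem aeval_sum' {L : Type*} [CommRing L] [Algebra ℂ L] (s t : L) (p : PR 2) :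
    aeval ![s, t] p = ∑ m ∈ p.support, algebraMap ℂ L (coeff m p) * (s ^ m 0 * t ^ m 1) := by
  rw [aeval_def, eval₂_eq']
  simp [Fin.prod_univ_two]

theorem e0_G (j : Fin 2) {f : (Fin 2 →₀ ℕ) → ℕ} {p : PR 2} {a : Fin 2 →₀ ℕ} (ha : a ∈ p.support)
    (h0 : f a = 0) (h : ∀ m ∈ p.support, f m = 0 → m 0 + m 1 = a 0 + a 1) :
    e0 (G j f p) ≠ 0 ∧ (e0 (G j f p)).natDegree ≤ a 0 + a 1 := by
  rw [e0, aeval_G]
  constructor
  · intro h1
    have h2 := congrArg (fun g => Polynomial.coeff g (a j)) h1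
    simp only [Polynomial.finsetSum_coeff, Polynomial.coeff_zero] at h2
    rw [Finset.sum_eq_single_of_mem a ha] at h2
    · simp [h0] at h2
      exact mem_support_iff.1 ha h2
    · intro m hm hne
      by_cases h3 : f m = 0
      · have h4 := h m hm h3
        have h5 : a j ≠ m j := fun h5 => hne (by
          ext i
          fin_cases i <;> fin_cases j <;> simp at h5 ⊢ <;> omega)
        simp [h3, Polynomial.coeff_X_pow, h5]
      · simp [h3]
  · refine Polynomial.natDegree_sum_le_of_forall_le _ _ fun m hm => ?_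
    by_cases h3 : f m = 0
    · have h4 := h m hm h3
      rw [h3, pow_zero, one_mul, Polynomial.algebraMap_eq]
      refine (Polynomial.natDegree_C_mul_X_pow_le _ _).trans ?_
      fin_cases j <;> simp <;> omega
    · simp [h3]

theorem blow {p : PR 2} (hp : p ≠ 0) (h0 : eval 0 p = 0) : ∃ (ν : ℕ) (p₁ p₂ : PR 2),
    b1 p = X 0 ^ (ν + 1) * p₁ ∧ b0 p = X 0 ^ (ν + 1) * p₂ ∧ e0 p₁ ≠ 0 ∧
      (e0 p₁).natDegree ≤ ν + 1 ∧ e0 p₂ ≠ 0 ∧ (e0 p₂).natDegree ≤ ν + 1 := by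
  obtain ⟨a, ha, hm⟩ := p.support.exists_min_image (fun m => m 0 + m 1) (support_nonempty.2 hp)
  have h1 : a 0 + a 1 ≠ 0 := fun h => by
    have h2 : a = 0 := by
      ext i
      fin_cases i <;> simp <;> omega
    rw [h2, mem_support_iff] at ha
    exact ha (by simpa [constantCoeff_eq] using h0)
  obtain ⟨ν, hν⟩ := Nat.exists_eq_add_one_of_ne_zero h1
  have h2 := fun j => e0_G j (f := fun m => m 0 + m 1 - (a 0 + a 1)) ha (Nat.sub_self _)
    fun m h3 h4 => by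
      have := hm m h3
      omega
  rw [hν] at h2 hm
  refine ⟨ν, G 1 _ p, G 0 _ p, ?_, ?_, (h2 1).1, (h2 1).2, (h2 0).1, (h2 0).2⟩
  · rw [b1, aeval_sum', G, Finset.mul_sum]
    refine Finset.sum_congr rfl fun m h3 => ?_
    obtain ⟨k, hk⟩ := Nat.exists_eq_add_of_le (hm m h3)
    rw [hk, Nat.add_sub_cancel_left, algebraMap_eq, mul_pow, ← mul_assoc (X 0 ^ m 0), ← pow_add, hk]
    ring
  · rw [b0, aeval_sum', G, Finset.mul_sum]
    refine Finset.sum_congr rfl fun m h3 => ?_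
    obtain ⟨k, hk⟩ := Nat.exists_eq_add_of_le (hm m h3)
    rw [hk, Nat.add_sub_cancel_left, algebraMap_eq, mul_pow, mul_right_comm (X 0 ^ m 0), ← pow_add,
      hk]
    ring

theorem infPoly : InfPolyStmt := by
  intro θ h
  obtain ⟨a, ha, hm⟩ := θ.support.exists_max_image (fun m => m 0 + m 1)
    (support_nonempty.2 h.ne_zero)
  have h2 := fun j => (e0_G j (f := fun m => a 0 + a 1 - (m 0 + m 1)) ha (Nat.sub_self _)
    fun m h3 h4 => by
      have := hm m h3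
      omega).1
  generalize a 0 + a 1 = d at h2 hm
  have k1 : ∀ (L : Type) [CommRing L] [Algebra ℂ L] (s s' t : L), s' * s = 1 →
      aeval ![s, t] (G 1 (fun m => d - (m 0 + m 1)) θ) = s ^ d * aeval ![s', s' * t] θ ∧
      aeval ![s, t] (G 0 (fun m => d - (m 0 + m 1)) θ) = s ^ d * aeval ![s' * t, s'] θ := by
    intro L _ _ s s' t hs
    have h3 : ∀ n : ℕ, s' ^ n * s ^ n = 1 := fun n => by rw [← mul_pow, hs, one_pow]
    simp only [aeval_G, aeval_sum' _ _ θ, Finset.mul_sum]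
    constructor
    all_goals
      refine Finset.sum_congr rfl fun m h4 => ?_
      obtain ⟨k, rfl⟩ := Nat.exists_eq_add_of_le (hm m h4)
      rw [Nat.add_sub_cancel_left, mul_pow]
    · linear_combination (-algebraMap ℂ L (coeff m θ) * s ^ k * t ^ m 1) * h3 (m 0 + m 1)
    · linear_combination (-algebraMap ℂ L (coeff m θ) * s ^ k * t ^ m 0) * h3 (m 0 + m 1)
  have k2 : ∀ (L : Type) [CommRing L] [Algebra ℂ L] (s t : L) (p : PR 2),
      aeval ![t, s] (sw p) = aeval ![s, t] p := fun L _ _ s t p =>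
    hom_eq (f := (aeval ![t, s]).comp sw) (by simp [sw]) (by simp [sw]) p
  refine ⟨X 0 * G 1 _ θ, sw (X 0 * G 0 _ θ),
    sqf_X (sqf_inf h (fun s s' t hs => (k1 AA s s' t hs).1) (nd0 (h2 1))) (nd0 (h2 1)),
    sqf_sw (sqf_X (sqf_inf (sqf_sw h) (fun s s' t hs => by rw [k2]; exact (k1 AA s s' t hs).2)
      (nd0 (h2 0))) (nd0 (h2 0))), dvd_mul_right _ _, ?_, d + 1, fun L _ _ s t hs => ?_⟩
  · rw [map_mul]
    exact dvd_mul_of_dvd_left (by simp [sw]) _
  · obtain ⟨h3, h4⟩ := k1 L s s⁻¹ t (inv_mul_cancel₀ hs)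
    rw [k2, map_mul, map_mul, h3, h4, div_eq_inv_mul, aeval_X]
    constructor <;> simp [pow_succ', mul_assoc]

theorem ntd_pow {f g : Polynomial ℂ} {k : ℕ} (hf : f ≠ 0) (h : f = Polynomial.X ^ k * g) :
    g ≠ 0 ∧ f.natTrailingDegree = g.natTrailingDegree + k := by
  have hg : g ≠ 0 := fun h0 => hf (by rw [h, h0, mul_zero])
  exact ⟨hg, by rw [h, mul_comm, Polynomial.natTrailingDegree_mul_X_pow hg]⟩

theorem ta_le (c : ℂ) {p : PR 2} (h : e0 p ≠ 0) :
    e0 (ta ![0, c] p) ≠ 0 ∧ (e0 (ta ![0, c] p)).natTrailingDegree ≤ (e0 p).natDegree := by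
  rw [e0_ta]
  exact ⟨fun h0 => h ((Polynomial.taylor_eq_zero c _).1 h0),
    (Polynomial.natTrailingDegree_le_natDegree _).trans (Polynomial.natDegree_taylor _ _).le⟩

theorem good_step {k ν : ℕ} {p p₁ : PR 2} (h : Good k p) (h1 : b1 p = X 0 ^ (ν + 2) * p₁)
    (c : ℂ) : ∃ k' < k, Good k' (ta ![0, c] p₁) := by
  obtain ⟨A, B, u, hu, h2⟩ := h
  have hX : (X 0 : PR 2) ≠ 0 := X_ne_zero 0
  have h3 : b1 (pderiv 1 p) = X 0 ^ (ν + 1) * pderiv 1 p₁ := by
    refine mul_left_cancel₀ hX ?_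
    rw [← der_b1, h1]
    simp
    ring
  have h4 := congrArg (fun g => ta ![0, c] (b1 g)) h2
  have h5 : ta ![0, c] (X 0) = X 0 := by simp [ta]
  have h6 : b1 (X 0) = X 0 := by simp [b1]
  simp only [map_add, map_mul, map_pow, h1, h3, h5, h6, ← der_ta] at h4
  rw [← ev_ta_b1 c] at hu
  rcases k with _ | k
  · have h7 := congrArg (eval 0) h4
    simp at h7
    exact absurd h7.symm (by simpa using hu)
  · refine ⟨k, k.lt_succ_self, ta ![0, c] (b1 A) * X 0 ^ (ν + 1), ta ![0, c] (b1 B) * X 0 ^ ν, _, hu,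
      mul_left_cancel₀ hX ?_⟩
    linear_combination h4

section
variable {P : PR 2 → Prop} (hT : ∀ θ, Term θ → P θ)
  (hW : ∀ θ, P (aeval ![(X 1 : PR 2), X 0] θ) → P θ)
  (hB : ∀ θ θ₁ θ₂, Bl θ θ₁ θ₂ → (∀ s : ℂ, P (tr ![0, s] θ₁)) → P θ₂ → P θ)
include hT hW hB

theorem rule {θ p₁ p₂ : PR 2} {ν : ℕ} (h1 : b1 θ = X 0 ^ ν * (X 0 * p₁))
    (h2 : b0 θ = X 0 ^ ν * (X 0 * p₂)) (h3 : ∀ c : ℂ, P (X 0 * ta ![0, c] p₁))
    (h4 : P (X 0 * p₂)) : P θ := by
  have h5 : sw (X 0) = X 1 := by simp [sw]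
  refine hB θ (X 0 * p₁) (sw (X 0 * p₂)) ⟨ν, h1, dvd_mul_right _ _, ?_, ?_⟩ (fun c => ?_)
    (hW _ ?_)
  · rw [← h5, ← map_pow, ← map_mul, ← h2]
    exact hom_eq (g := sw.comp b0) (by simp [sw, b0, mul_comm]) (by simp [sw, b0]) θ
  · rw [map_mul, h5]
    exact dvd_mul_right _ _
  · have h6 : tr ![0, c] (X 0 * p₁) = X 0 * ta ![0, c] p₁ := by simp [tr, ta]
    rw [h6]
    exact h3 c
  · have h6 : aeval ![(X 1 : PR 2), X 0] (sw (X 0 * p₂)) = X 0 * p₂ := sw_sw _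
    rw [h6]
    exact h4

theorem both (n : ℕ) :
    (∀ p, Squarefree p → e0 p ≠ 0 → (e0 p).natTrailingDegree < n → P (X 0 * p)) ∧
    ∀ p, Squarefree p → e0 p ≠ 0 → e1 p ≠ 0 →
      (e0 p).natTrailingDegree + (e1 p).natTrailingDegree < n → P (X 0 * (X 1 * p)) := by
  have a0 : b0 (X 0) = X 0 * X 1 := by simp [b0]
  have a1 : b0 (X 1) = X 0 := by simp [b0]
  have a2 : b1 (X 0) = X 0 := by simp [b1]
  have a3 : b1 (X 1) = X 0 * X 1 := by simp [b1]
  have a4 : e1 (X 0) = Polynomial.X := by simp [e1]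
  induction n with
  | zero => exact ⟨fun _ _ _ h => absurd h (Nat.not_lt_zero _),
      fun _ _ _ _ h => absurd h (Nat.not_lt_zero _)⟩
  | succ n ih =>
  obtain ⟨hS, hN⟩ := ih
  have hN' : ∀ p, Squarefree p → e0 p ≠ 0 → e1 p ≠ 0 →
      (e0 p).natTrailingDegree + (e1 p).natTrailingDegree < n + 1 → P (X 0 * (X 1 * p)) := by
    intro p hp h0 h1 hn
    by_cases hz : eval 0 p = 0
    swap
    · exact hT _ ⟨X 0, X 1, p, 1, by simp [jp], hz, by simp, by ring⟩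
    obtain ⟨ν, p₁, p₂, k1, k2, k3, k4, k5, k6⟩ := blow hp.ne_zero hz
    obtain ⟨l1, l2⟩ := ntd_pow h1 (k := ν + 1) (g := e1 p₁)
      (by rw [← e1_b1, k1, map_mul, map_pow, a4])
    obtain ⟨l3, l4⟩ := ntd_pow h0 (k := ν + 1) (g := e1 p₂)
      (by rw [← e1_b0, k2, map_mul, map_pow, a4])
    have s1 := sqf_blow hp k1 (nd0 k3)
    have s2 := sqf_blow (sqf_sw hp) ((b1_sw p).trans k2) (nd0 k5)
    have l5 := (e0 p₁).natTrailingDegree_le_natDegree
    have l6 := (e0 p₂).natTrailingDegree_le_natDegree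
    refine rule hT hW hB (ν := ν + 2) (p₁ := X 1 * p₁) (p₂ := X 1 * p₂) ?_ ?_ (fun c => ?_)
      (hN p₂ s2 k5 l3 (by omega))
    · rw [map_mul, map_mul, a2, a3, k1]
      ring
    · rw [map_mul, map_mul, a0, a1, k2]
      ring
    rcases eq_or_ne c 0 with rfl | hc
    · rw [ta_zero]
      exact hN p₁ s1 k3 l1 (by omega)
    obtain ⟨m1, m2⟩ := ta_le c k3
    have m3 : e0 (ta ![0, c] (X 1)) = Polynomial.X + Polynomial.C c := by simp [e0, ta]
    have m4 : e0 (ta ![0, c] (X 1)) ≠ 0 := m3 ▸ Polynomial.X_add_C_ne_zero c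
    have m5 : (e0 (ta ![0, c] (X 1))).natTrailingDegree = 0 :=
      Polynomial.natTrailingDegree_eq_zero.2 (Or.inr (by simpa [m3] using hc))
    refine hS _ (sqf_ta _ (sqf_X s1 (nd1 l1))) ?_ ?_
    · rw [map_mul, map_mul]
      exact mul_ne_zero m4 m1
    · rw [map_mul, map_mul, Polynomial.natTrailingDegree_mul m4 m1]
      omega
  refine ⟨fun p hp h0 hn => ?_, hN'⟩
  obtain ⟨k, hk⟩ := good_of hp
  induction k using Nat.strong_induction_on generalizing p with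
  | _ k ih =>
  by_cases hz : eval 0 p = 0
  swap
  · exact hT _ ⟨X 0, 1 + X 1, p, 1 + X 1, by simp [jp], hz, by simp, by ring⟩
  by_cases hd : eval 0 (pderiv 1 p) = 0
  swap
  · exact hT _ ⟨X 0, p, 1, 1, by simpa [jp] using hd, by simp, by simp, by ring⟩
  have l0 : 2 ≤ (e0 p).natTrailingDegree := Polynomial.le_natTrailingDegree h0 fun m hm => by
    interval_cases m
    · rw [ev_e0, hz]
    · rw [← ev_e0, ← der_e0, Polynomial.coeff_derivative] at hd
      simpa using hd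
  obtain ⟨ν, p₁, p₂, k1, k2, k3, k4, k5, k6⟩ := blow hp.ne_zero hz
  obtain ⟨l3, l4⟩ := ntd_pow h0 (k := ν + 1) (g := e1 p₂)
    (by rw [← e1_b0, k2, map_mul, map_pow, a4])
  have s1 := sqf_blow hp k1 (nd0 k3)
  have s2 := sqf_blow (sqf_sw hp) ((b1_sw p).trans k2) (nd0 k5)
  have l6 := (e0 p₂).natTrailingDegree_le_natDegree
  refine rule hT hW hB (ν := ν + 1) (p₁ := p₁) (p₂ := X 1 * p₂) ?_ ?_ (fun c => ?_)
    (hN' p₂ s2 k5 l3 (by omega))
  · rw [map_mul, a2, k1]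
    ring
  · rw [map_mul, a0, k2]
    ring
  obtain ⟨m1, m2⟩ := ta_le c k3
  rcases ν with _ | ν
  · exact hS _ (sqf_ta _ s1) m1 (by omega)
  · obtain ⟨k', m3, m4⟩ := good_step hk k1 c
    exact ih k' m3 _ (sqf_ta _ s1) m1 (by omega) m4

end

theorem resInd : ResIndStmt := by
  intro P hT hW hB θ hθ q
  have hp : Squarefree (tr q θ) := sqf_ta q hθ
  generalize tr q θ = p at hp
  have hS := fun r h1 h2 => (both hT hW hB _).1 r h1 h2 (Nat.lt_succ_self _)
  by_cases hz : eval 0 p = 0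
  swap
  · exact hT _ ⟨1 + X 0, 1 + X 1, p, (1 + X 0) * (1 + X 1), by simp [jp], hz, by simp, by ring⟩
  obtain ⟨ν, p₁, p₂, k1, k2, k3, -, k5, -⟩ := blow hp.ne_zero hz
  refine rule hT hW hB (ν := ν) (p₁ := p₁) (p₂ := p₂) ?_ ?_
    (fun c => hS _ (sqf_ta _ (sqf_blow hp k1 (nd0 k3))) (ta_le c k3).1)
    (hS _ (sqf_blow (sqf_sw hp) ((b1_sw p).trans k2) (nd0 k5)) k5)
  · rw [k1]
    ring
  · rw [k2]
    ring

end Pool.Agent.MP_c69980_ag.H16
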