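import Pool.Agent.MP_c69980_ag.H4.SpecA

/-!
Squarefree polynomials in two variables under birational substitutions.
-/

set_option autoImplicit false

noncomputable section

namespace Pool.Agent.MP_c69980_ag.H16

open MvPolynomial
open H60 (PR)
open H4

theorem rad_loc {R S : Type*} [CommRing R] [CommRing S] [Algebra R S] (M : Submonoid R)
    [IsLocalization M S] {a : R} (h : IsRadical a) : IsRadical (algebraMap R S a) := by
  rw [isRadical_iff_span_singleton] at h ⊢
  have h1 : Ideal.span {algebraMap R S a} = (Ideal.span {a}).map (algebraMap R S) := by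
    rw [Ideal.map_span, Set.image_singleton]
  rw [h1, ← Ideal.radical_eq_iff, ← IsLocalization.map_radical M, h.radical]

theorem rad_hom {S S' : Type*} [CommRing S] [CommRing S'] (f : S →+* S') (g : S' →+* S)
    (h1 : ∀ z, f (g z) = z) (h2 : ∀ z, g (f z) = z) {a : S} (h : IsRadical a) :
    IsRadical (f a) := by
  intro n x hx
  have h3 := map_dvd g hx
  rw [h2, map_pow] at h3
  have h4 := map_dvd f (h n _ h3)
  rwa [h1] at h4

theorem sqf_hom (f g : PR 2 →ₐ[ℂ] PR 2) (h1 : ∀ i, f (g (X i)) = X i)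
    (h2 : ∀ i, g (f (X i)) = X i) {a : PR 2} (h : Squarefree a) : Squarefree (f a) := by
  have e1 : f.comp g = AlgHom.id ℂ _ := algHom_ext h1
  have e2 : g.comp f = AlgHom.id ℂ _ := algHom_ext h2
  have h3 : ∀ z, f (g z) = z := fun z => DFunLike.congr_fun e1 z
  have h4 : ∀ z, g (f z) = z := fun z => DFunLike.congr_fun e2 z
  refine IsRadical.squarefree (fun h0 => h.ne_zero ?_) (rad_hom f.toRingHom g.toRingHom h3 h4 h.isRadical)
  have h5 : f a = 0 := h0
  rw [← h4 a, h5, map_zero]

/-- The ring in which the first variable is invertible. -/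
abbrev AA : Type := Localization.Away (X 0 : PR 2)

theorem rad_back {a : PR 2} (h : IsRadical (algebraMap (PR 2) AA a)) (ha : ¬ X 0 ∣ a) :
    Squarefree a := by
  refine IsRadical.squarefree (fun h0 => ha (h0 ▸ dvd_zero _)) fun n x hx => ?_
  have h1 := map_dvd (algebraMap (PR 2) AA) hx
  rw [map_pow] at h1
  have h2 : algebraMap (PR 2) AA x ∈ (Ideal.span {a}).map (algebraMap (PR 2) AA) := by
    rw [Ideal.map_span, Set.image_singleton, Ideal.mem_span_singleton]
    exact h n _ h1
  obtain ⟨_, ⟨k, rfl⟩, h3⟩ :=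
    (IsLocalization.algebraMap_mem_map_algebraMap_iff (Submonoid.powers (X 0 : PR 2)) AA _ _).1 h2
  rw [Ideal.mem_span_singleton] at h3
  have h4 : IsRelPrime (X 0 : PR 2) a := X_prime.irreducible.isRelPrime_iff_not_dvd.2 ha
  exact (h4.symm.pow_right (n := k)).dvd_of_dvd_mul_left h3

theorem exists_lf {a : AA} (b : AA) (ha : IsUnit a) : ∃ f : AA →ₐ[ℂ] AA,
    (∀ x, f (algebraMap (PR 2) AA x) = aeval ![a, b] x) ∧
      f (algebraMap (PR 2) AA (X 0)) = a ∧ f (algebraMap (PR 2) AA (X 1)) = b := by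
  refine ⟨IsLocalization.liftAlgHom (M := Submonoid.powers (X 0 : PR 2)) (f := aeval ![a, b]) ?_,
    fun x => ?_, ?_, ?_⟩
  · rintro ⟨_, n, rfl⟩
    simpa using ha.pow n
  all_goals simp

theorem inv_of (f g : AA →ₐ[ℂ] AA)
    (h : ∀ i, f (g (algebraMap (PR 2) AA (X i))) = algebraMap (PR 2) AA (X i)) (z : AA) :
    f (g z) = z := by
  have e : f.comp g = AlgHom.id ℂ _ :=
    IsLocalization.algHom_ext (Submonoid.powers (X 0 : PR 2)) (algHom_ext h)
  exact DFunLike.congr_fun e z

theorem sqf_tr (f g : AA →ₐ[ℂ] AA)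
    (h1 : ∀ i, f (g (algebraMap (PR 2) AA (X i))) = algebraMap (PR 2) AA (X i))
    (h2 : ∀ i, g (f (algebraMap (PR 2) AA (X i))) = algebraMap (PR 2) AA (X i))
    {a b : PR 2} (h : Squarefree a) {u u' : AA} (hu : IsUnit u) (hu' : IsUnit u')
    (hab : u * f (algebraMap (PR 2) AA a) = u' * algebraMap (PR 2) AA b) (hb : ¬ X 0 ∣ b) :
    Squarefree b := by
  have h3 := rad_hom f.toRingHom g.toRingHom (inv_of f g h1) (inv_of g f h2)
    (rad_loc (S := AA) (Submonoid.powers (X 0 : PR 2)) h.isRadical)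
  refine rad_back (fun n x hx => ?_) hb
  have h4 : f (algebraMap (PR 2) AA a) ∣ algebraMap (PR 2) AA b :=
    hu'.dvd_mul_left.1 (hab ▸ dvd_mul_left _ _)
  have h5 : algebraMap (PR 2) AA b ∣ f (algebraMap (PR 2) AA a) :=
    hu.dvd_mul_left.1 (hab ▸ dvd_mul_left _ _)
  exact h5.trans (h3 n x (h4.trans hx))

theorem exists_inv : ∃ s' : AA, s' * algebraMap (PR 2) AA (X 0) = 1 :=
  (IsLocalization.Away.algebraMap_isUnit (S := AA) (X 0 : PR 2)).exists_left_inv

theorem alg_aeval (v : Fin 2 → PR 2) (p : PR 2) :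
    algebraMap (PR 2) AA (aeval v p) = aeval (fun i => algebraMap (PR 2) AA (v i)) p :=
  comp_aeval_apply v (IsScalarTower.toAlgHom ℂ (PR 2) AA) p

theorem sqf_blow {a b : PR 2} (h : Squarefree a) {k : ℕ}
    (hab : aeval ![X 0, X 0 * X 1] a = (X 0 : PR 2) ^ k * b) (hb : ¬ X 0 ∣ b) : Squarefree b := by
  obtain ⟨s', hs⟩ := exists_inv
  have hu := IsLocalization.Away.algebraMap_isUnit (S := AA) (X 0 : PR 2)
  obtain ⟨f, f3, f0, f1⟩ := exists_lf
    (algebraMap (PR 2) AA (X 0) * algebraMap (PR 2) AA (X 1)) hu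
  obtain ⟨g, -, g0, g1⟩ := exists_lf (s' * algebraMap (PR 2) AA (X 1)) hu
  have f2 := congrArg f hs
  rw [map_mul, f0, map_one] at f2
  refine sqf_tr f g (Fin.forall_fin_two.2 ⟨?_, ?_⟩)
    (Fin.forall_fin_two.2 ⟨?_, ?_⟩) h isUnit_one (hu.pow k) ?_ hb
  · rw [g0, f0]
  · rw [g1, map_mul, f1]
    linear_combination algebraMap (PR 2) AA (X 1) * f2
  · rw [f0, g0]
  · rw [f1, map_mul, g0, g1]
    linear_combination algebraMap (PR 2) AA (X 1) * hs
  · rw [one_mul, f3, ← map_pow, ← map_mul, ← map_mul, ← hab, alg_aeval]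
    congr 2
    ext i
    fin_cases i <;> rfl

theorem sqf_inf {a b : PR 2} (h : Squarefree a) {k : ℕ}
    (hab : ∀ s s' t : AA, s' * s = 1 → aeval ![s, t] b = s ^ k * aeval ![s', s' * t] a)
    (hb : ¬ X 0 ∣ b) : Squarefree b := by
  obtain ⟨s', hs⟩ := exists_inv
  have hu := IsLocalization.Away.algebraMap_isUnit (S := AA) (X 0 : PR 2)
  obtain ⟨f, f3, f0, f1⟩ := exists_lf (s' * algebraMap (PR 2) AA (X 1))
    (IsUnit.of_mul_eq_one _ hs)
  have f2 := congrArg f hs
  rw [map_mul, f0, map_one] at f2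
  have key : ∀ i, f (f (algebraMap (PR 2) AA (X i))) = algebraMap (PR 2) AA (X i) := by
    refine Fin.forall_fin_two.2 ⟨?_, ?_⟩
    · rw [f0]
      linear_combination algebraMap (PR 2) AA (X 0) * f2 - f s' * hs
    · rw [f1, map_mul, f1]
      linear_combination algebraMap (PR 2) AA (X 1) * f2
  refine sqf_tr f f key key h (hu.pow k) isUnit_one ?_ hb
  rw [one_mul, f3, ← hab _ s' _ hs]
  have h1 := alg_aeval X b
  rw [aeval_X_left_apply] at h1
  rw [h1]
  congr 2
  ext i
  fin_cases i <;> rfl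

theorem chain {L : Type*} [CommRing L] [Algebra ℂ L] (D : Derivation ℂ L L) (v : Fin 2 → L)
    (p : PR 2) :
    D (aeval v p) = aeval v (pderiv 0 p) * D (v 0) + aeval v (pderiv 1 p) * D (v 1) := by
  induction p using MvPolynomial.induction_on with
  | C a => simp
  | add p q hp hq =>
    simp only [map_add, hp, hq]
    ring
  | mul_X p i hp =>
    simp only [map_mul, aeval_X, Derivation.leibniz, hp, smul_eq_mul, map_add]
    fin_cases i <;> simp <;> ring

/-- A Bezout identity between `p` and its derivative in the second variable. -/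
def Good (k : ℕ) (p : PR 2) : Prop :=
  ∃ A B u : PR 2, eval 0 u ≠ 0 ∧ A * p + B * pderiv 1 p = X 0 ^ k * u

attribute [local instance] Polynomial.algebra in
theorem bezout {f : Polynomial (Polynomial ℂ)} (h : Squarefree f) :
    ∃ (A B : Polynomial (Polynomial ℂ)) (D : Polynomial ℂ), D ≠ 0 ∧
      A * f + B * Polynomial.derivative f = Polynomial.C D := by
  have := Polynomial.isLocalization (nonZeroDivisors (Polynomial ℂ)) (FractionRing (Polynomial ℂ))
  have h1 := rad_loc (S := Polynomial (FractionRing (Polynomial ℂ)))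
    ((nonZeroDivisors (Polynomial ℂ)).map Polynomial.C) h.isRadical
  have h2 : ∀ g : Polynomial (Polynomial ℂ),
      algebraMap _ (Polynomial (FractionRing (Polynomial ℂ))) g =
        g.map (algebraMap _ (FractionRing (Polynomial ℂ))) := fun g => rfl
  have h3 : algebraMap _ (Polynomial (FractionRing (Polynomial ℂ))) f ≠ 0 := by
    rw [h2]
    exact (Polynomial.map_ne_zero_iff (IsFractionRing.injective _ _)).2 h.ne_zero
  obtain ⟨a, b, h4⟩ := PerfectField.separable_iff_squarefree.2 (h1.squarefree h3)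
  have h5 : algebraMap _ (Polynomial (FractionRing (Polynomial ℂ))) (1 : Polynomial (Polynomial ℂ)) ∈
      (Ideal.span {f, Polynomial.derivative f}).map (algebraMap _ _) := by
    rw [Ideal.map_span, Set.image_pair, Ideal.mem_span_pair, map_one]
    refine ⟨a, b, ?_⟩
    rw [← h4, h2, h2, Polynomial.derivative_map]
  obtain ⟨_, ⟨D, hD, rfl⟩, h6⟩ := (IsLocalization.algebraMap_mem_map_algebraMap_iff
    ((nonZeroDivisors (Polynomial ℂ)).map Polynomial.C) _ _ _).1 h5
  obtain ⟨A, B, h7⟩ := Ideal.mem_span_pair.1 h6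
  exact ⟨A, B, D, nonZeroDivisors.ne_zero hD, by simpa using h7⟩

theorem good_of {p : PR 2} (h : Squarefree p) : ∃ k, Good k p := by
  obtain ⟨f, rfl⟩ := (Polynomial.Bivariate.equivMvPolynomial ℂ).surjective p
  have h1 : Squarefree f := by
    have h2 := rad_hom (Polynomial.Bivariate.equivMvPolynomial ℂ).symm.toRingEquiv.toRingHom
      (Polynomial.Bivariate.equivMvPolynomial ℂ).toRingEquiv.toRingHom (by simp) (by simp)
      h.isRadical
    refine IsRadical.squarefree (fun h0 => h.ne_zero (by rw [h0, map_zero])) (by simpa using h2)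
  obtain ⟨A, B, D, hD, h2⟩ := bezout h1
  obtain ⟨E, hE, h3⟩ := D.exists_eq_pow_rootMultiplicity_mul_and_not_dvd hD 0
  rw [map_zero, sub_zero] at hE h3
  have h4 : E = Polynomial.X * E.divX + Polynomial.C (E.coeff 0) := E.X_mul_divX_add.symm
  refine ⟨D.rootMultiplicity 0, Polynomial.Bivariate.equivMvPolynomial ℂ A,
    Polynomial.Bivariate.equivMvPolynomial ℂ B,
    Polynomial.Bivariate.equivMvPolynomial ℂ (Polynomial.C E), fun h0 => h3 ?_, ?_⟩
  · rw [h4] at h0
    rw [Polynomial.X_dvd_iff]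
    simpa only [map_add, map_mul, Polynomial.Bivariate.equivMvPolynomial_C_X, eval_X, eval_C,
      Polynomial.Bivariate.equivMvPolynomial_C_C, Pi.zero_apply, zero_mul, zero_add] using h0
  · rw [Polynomial.Bivariate.pderiv_one_equivMvPolynomial, ← map_mul, ← map_mul, ← map_add, h2,
      ← Polynomial.Bivariate.equivMvPolynomial_C_X, ← map_pow, ← map_pow, ← map_mul, ← map_mul,
      ← hE]

end Pool.Agent.MP_c69980_ag.H16
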